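import Mathlib
import Pool.Agent.Q147.WeakPc

/-!
# MP_bb2768_gt : a weakly pseudocompact `ℝ`-factorizable group that is not precompact

The group is `ℤ × Σ`, where `Σ` is the group of all functions `ℝ → ZMod 2` with countable support.
-/

namespace Pool.Agent.Results.MP_bb2768_gt.WeaklyPseudocompactFactorizable

open Set Topology Filter Pool.Agent.Q147.WeakPc Pool.Agent.Q147.SigmaProd

/-- `G` is `ℝ`-factorizable: every continuous `f : G → ℝ` is of the form `h ∘ π` with a continuous
surjective homomorphism `π` onto a second-countable (Hausdorff) topological group `H` and a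
continuous `h : H → ℝ`. -/
def RFactorizable (G : Type) [AddGroup G] [TopologicalSpace G] : Prop :=
  ∀ f : G → ℝ, Continuous f → ∃ (H : Type) (_ : AddGroup H) (_ : TopologicalSpace H),
    IsTopologicalAddGroup H ∧ T2Space H ∧ SecondCountableTopology H ∧
    ∃ (π : G →+ H) (h : H → ℝ), Continuous π ∧ Function.Surjective π ∧ Continuous h ∧
      f = h ∘ π

/-- A continuous real function on the Sigma-product depends, up to `ε`, on countably many
coordinates. -/
theorem dep_eps {ι : Type} (f : Sg ι → ℝ) (hf : Continuous f) (ε : ℝ) (hε : 0 < ε) :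
    ∃ A : Set ι, A.Countable ∧ ∀ x y : Sg ι, (∀ i ∈ A, x.1 i = y.1 i) → |f x - f y| < ε := by
  classical
  by_contra hcon
  push Not at hcon
  have h : ∀ A : Set ι, ∃ x y : Sg ι, A.Countable → (∀ i ∈ A, x.1 i = y.1 i) ∧
      ε ≤ |f x - f y| := by
    intro A
    by_cases hA : A.Countable
    · obtain ⟨x, y, h1, h2⟩ := hcon A hA
      exact ⟨x, y, fun _ => ⟨h1, h2⟩⟩
    · exact ⟨0, 0, fun h => absurd h hA⟩
  choose X Y hXY using h
  obtain ⟨A, hA0, hAs⟩ : ∃ A : ℕ → Set ι, A 0 = ∅ ∧
      ∀ n, A (n + 1) = A n ∪ (Function.support (X (A n)).1 ∪ Function.support (Y (A n)).1) :=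
    ⟨fun n => Nat.rec ∅ (fun _ B => B ∪ (Function.support (X B).1 ∪ Function.support (Y B).1)) n,
      rfl, fun n => rfl⟩
  have hAc : ∀ n, (A n).Countable := by
    intro n
    induction n with
    | zero => rw [hA0]; exact Set.countable_empty
    | succ n ih => rw [hAs]; exact ih.union ((X (A n)).2.union (Y (A n)).2)
  have hmono : Monotone A := monotone_nat_of_le_succ fun n => by
    rw [hAs]; exact Set.subset_union_left
  let B : Set ι := ⋃ n, A n
  have hB : B.Countable := Set.countable_iUnion hAc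
  have hX : ∀ n, ∀ i, i ∉ B → (X (A n)).1 i = 0 := by
    intro n i hi
    by_contra hne
    apply hi
    refine Set.mem_iUnion.2 ⟨n + 1, ?_⟩
    rw [hAs]; exact Or.inr (Or.inl hne)
  have hY : ∀ n, ∀ i, i ∉ B → (Y (A n)).1 i = 0 := by
    intro n i hi
    by_contra hne
    apply hi
    refine Set.mem_iUnion.2 ⟨n + 1, ?_⟩
    rw [hAs]; exact Or.inr (Or.inr hne)
  have hK : IsCompact (KA B) := isCompact_KA hB
  -- a cluster point along an ultrafilter
  let 𝒰 : Ultrafilter ℕ := hyperfilter ℕ
  have hle : (𝒰.map (fun n => X (A n)) : Filter (Sg ι)) ≤ 𝓟 (KA B) := by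
    rw [le_principal_iff]
    refine Ultrafilter.mem_coe.2 (Ultrafilter.mem_map.2 ?_)
    exact Filter.univ_mem' fun n i hi => hX n i hi
  obtain ⟨x, hx, hxlim⟩ := hK.ultrafilter_le_nhds _ hle
  have hXt : Tendsto (fun n => X (A n)) 𝒰 (𝓝 x) := hxlim
  have hYt : Tendsto (fun n => Y (A n)) 𝒰 (𝓝 x) := by
    rw [tendsto_subtype_rng, tendsto_pi_nhds]
    intro i
    have h1 : Tendsto (fun n => (X (A n)).1 i) 𝒰 (𝓝 (x.1 i)) := by
      have hc : Continuous fun z : Sg ι => z.1 i := (continuous_apply i).comp continuous_subtype_val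
      exact (hc.tendsto x).comp hXt
    refine h1.congr' ?_
    by_cases hi : i ∈ B
    · obtain ⟨m, hm⟩ := Set.mem_iUnion.1 hi
      have h2 : ∀ᶠ n in (𝒰 : Filter ℕ), m ≤ n := by
        have : (hyperfilter ℕ : Filter ℕ) ≤ atTop := by
          rw [← Nat.cofinite_eq_atTop]; exact hyperfilter_le_cofinite
        exact this (eventually_ge_atTop m)
      filter_upwards [h2] with n hn
      exact (hXY (A n) (hAc n)).1 i (hmono hn hm)
    · exact Filter.Eventually.of_forall fun n => by
        change (X (A n)).1 i = (Y (A n)).1 i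
        rw [hX n i hi, hY n i hi]
  have h3 : Tendsto (fun n => f (X (A n)) - f (Y (A n))) 𝒰 (𝓝 (f x - f x)) :=
    ((hf.tendsto x).comp hXt).sub ((hf.tendsto x).comp hYt)
  rw [sub_self] at h3
  have h4 : ∀ᶠ n in (𝒰 : Filter ℕ), |f (X (A n)) - f (Y (A n))| < ε := by
    have := h3.eventually (Metric.ball_mem_nhds (0 : ℝ) hε)
    filter_upwards [this] with n hn
    simpa [Real.dist_eq] using hn
  obtain ⟨n, hn⟩ := h4.exists
  exact absurd hn (not_lt.2 (hXY (A n) (hAc n)).2)

/-- A continuous real function on the Sigma-product depends on countably many coordinates. -/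
theorem dep {ι : Type} (f : Sg ι → ℝ) (hf : Continuous f) :
    ∃ A : Set ι, A.Countable ∧ ∀ x y : Sg ι, (∀ i ∈ A, x.1 i = y.1 i) → f x = f y := by
  have h : ∀ n : ℕ, ∃ A : Set ι, A.Countable ∧
      ∀ x y : Sg ι, (∀ i ∈ A, x.1 i = y.1 i) → |f x - f y| < 1 / ((n : ℝ) + 1) :=
    fun n => dep_eps f hf _ Nat.one_div_pos_of_nat
  choose A hA hA' using h
  refine ⟨⋃ n, A n, Set.countable_iUnion hA, fun x y hxy => ?_⟩
  by_contra hne
  have hpos : 0 < |f x - f y| := abs_pos.2 (sub_ne_zero.2 hne)
  obtain ⟨n, hn⟩ := exists_nat_one_div_lt hpos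
  exact absurd (hA' n x y fun i hi => hxy i (Set.mem_iUnion.2 ⟨n, hi⟩)) (not_lt.2 hn.le)

/-- Extension by zero. -/
noncomputable def ext0 {ι : Type} {A : Set ι} (hA : A.Countable) (z : A → ZMod 2) : Sg ι :=
  open Classical in
  ⟨fun i => if h : i ∈ A then z ⟨i, h⟩ else 0, by
    rw [mem_Sg]
    refine hA.mono ?_
    intro i hi
    by_contra hiA
    exact hi (dif_neg hiA)⟩

theorem ext0_apply {ι : Type} {A : Set ι} (hA : A.Countable) (z : A → ZMod 2) (i : ι)
    (hi : i ∈ A) : (ext0 hA z).1 i = z ⟨i, hi⟩ := dif_pos hi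

theorem continuous_ext0 {ι : Type} {A : Set ι} (hA : A.Countable) :
    Continuous (ext0 hA) := by
  classical
  refine Continuous.subtype_mk (continuous_pi fun i => ?_) _
  by_cases hi : i ∈ A
  · simp only [hi, dif_pos]
    exact continuous_apply _
  · simp only [hi, dif_neg, not_false_eq_true]
    exact continuous_const

theorem rFactorizable (ι : Type) : RFactorizable (ℤ × Sg ι) := by
  intro f hf
  have h : ∀ n : ℤ, ∃ A : Set ι, A.Countable ∧ ∀ x y : Sg ι, (∀ i ∈ A, x.1 i = y.1 i) →
      f (n, x) = f (n, y) := fun n => dep (fun x => f (n, x)) (by fun_prop)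
  choose A hA hA' using h
  let B : Set ι := ⋃ n, A n
  have hB : B.Countable := Set.countable_iUnion hA
  have hdep : ∀ (n : ℤ) (x y : Sg ι), (∀ i ∈ B, x.1 i = y.1 i) → f (n, x) = f (n, y) :=
    fun n x y hxy => hA' n x y fun i hi => hxy i (Set.mem_iUnion.2 ⟨n, hi⟩)
  have : Countable B := hB
  let π : ℤ × Sg ι →+ ℤ × (B → ZMod 2) :=
    { toFun := fun g => (g.1, fun i => g.2.1 i)
      map_zero' := by rfl
      map_add' := fun g g' => by rfl }
  have hπ : Continuous π := by
    refine continuous_fst.prodMk (continuous_pi fun i => ?_)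
    exact (continuous_apply _).comp (continuous_subtype_val.comp continuous_snd)
  refine ⟨ℤ × (B → ZMod 2), inferInstance, inferInstance, inferInstance, inferInstance,
    inferInstance, π, fun q => f (q.1, ext0 hB q.2), hπ, ?_, ?_, ?_⟩
  · rintro ⟨n, z⟩
    refine ⟨(n, ext0 hB z), ?_⟩
    ext1
    · rfl
    · funext i
      exact ext0_apply hB z i i.2
  · exact hf.comp (continuous_fst.prodMk ((continuous_ext0 hB).comp continuous_snd))
  · funext g
    refine hdep g.1 g.2 _ ?_
    intro i hi
    exact (ext0_apply hB (π g).2 i hi).symm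

/-- There is a Hausdorff abelian topological group that is weakly pseudocompact and
`ℝ`-factorizable, but neither precompact nor pseudocompact. -/
theorem result : ∃ (G : Type) (_ : AddCommGroup G) (_ : TopologicalSpace G),
    IsTopologicalAddGroup G ∧ T2Space G ∧ WeaklyPseudocompact G ∧ RFactorizable G ∧
    ¬ Precompact G ∧ ¬ Pseudocompact G :=
  ⟨ℤ × Sg ℝ, inferInstance, inferInstance, inferInstance, inferInstance, weaklyPseudocompact ℝ,
    rFactorizable ℝ, not_precompact ℝ, not_pseudocompact ℝ⟩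

end Pool.Agent.Results.MP_bb2768_gt.WeaklyPseudocompactFactorizable
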